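import Pool.Agent.Helper36_XQ.Stmt4

/-!
Squad XQ (MP_5b0138_an), part A4, module CR3 (helper32): the corner kernels of G3.
-/

set_option autoImplicit false

namespace Pool.Agent.XQ.K4.H32

open MeasureTheory Complex Filter Topology ProbabilityTheory Pool.Agent.H16Iso Pool.Agent.H62T
  Pool.Agent.H16F Pool.Agent.H38KL Pool.Agent.AEU Pool.Agent.XQ.K4
open scoped ENNReal NNReal

/-- small angles -/
theorem box_arg {a b ρ ψ0 : ℝ} (ha : 0 < a) (hψ : 0 < ψ0) (hψ2 : ψ0 < Real.pi / 2)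
    (hρ : ρ ≤ a * Real.sin ψ0) {x : ℂ} (hx : x ∈ Rct a b ρ) : |arg x| ≤ ψ0 := by
  obtain ⟨h1, h2, h3⟩ := hx
  have hre : 0 ≤ x.re := by linarith
  have hn : a < ‖x‖ := lt_of_lt_of_le h1 (le_trans (le_abs_self _) (Complex.abs_re_le_norm x))
  have hn0 : 0 < ‖x‖ := lt_trans ha hn
  have hs : 0 < Real.sin ψ0 := Real.sin_pos_of_pos_of_lt_pi hψ (by linarith [Real.pi_pos])
  have h4 : |x.im / ‖x‖| ≤ Real.sin ψ0 := by
    rw [abs_div, abs_of_pos hn0, div_le_iff₀ hn0]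
    have h5 : a * Real.sin ψ0 ≤ Real.sin ψ0 * ‖x‖ := by
      rw [mul_comm]
      exact mul_le_mul_of_nonneg_left hn.le hs.le
    linarith
  rw [Complex.arg_of_re_nonneg hre, abs_le]
  obtain ⟨h6, h7⟩ := abs_le.1 h4
  constructor
  · rw [Real.le_arcsin_iff_sin_le' ⟨by linarith, by linarith⟩, Real.sin_neg]
    exact h6
  · rw [Real.arcsin_le_iff_le_sin' ⟨by linarith, by linarith⟩]
    exact h7

theorem box_norm {a b ρ : ℝ} (ha : 0 < a) {x : ℂ} (hx : x ∈ Rct a b ρ) :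
    a ≤ ‖x‖ ∧ ‖x‖ ≤ b + ρ := by
  obtain ⟨h1, h2, h3⟩ := hx
  refine ⟨(lt_of_lt_of_le h1 (le_trans (le_abs_self _) (Complex.abs_re_le_norm x))).le, ?_⟩
  have h4 := Complex.norm_le_abs_re_add_abs_im x
  rw [abs_of_pos (by linarith : (0 : ℝ) < x.re)] at h4
  linarith

/-- the two-sided bound of a corner kernel on a box -/
def BX (k : ℝ → ℂ → ℂ → ℝ) (a b ρ c C κ0 : ℝ) : Prop :=
  ∀ (κ : ℝ) (x y : ℂ), κ0 ≤ κ → x ∈ Rct a b ρ → y ∈ Rct a b ρ →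
    ENNReal.ofReal (c * κ⁻¹ * Real.exp (-(κ * (‖x‖ + ‖y‖)))) ≤ Lh k κ x y ∧
    Lh k κ x y ≤ ENNReal.ofReal (C * κ⁻¹ * Real.exp (-(κ * (‖x‖ + ‖y‖))))

theorem box_of {k : ℝ → ℂ → ℂ → ℝ} {a b : ℝ} (ha : 0 < a)
    (h : ∃ ψ0 c C κ0 : ℝ, 0 < ψ0 ∧ 0 < c ∧ 0 < C ∧ 0 < κ0 ∧ ∀ κ r r' ψ ψ' : ℝ, κ0 ≤ κ → a ≤ r →
      r ≤ b + 1 → a ≤ r' → r' ≤ b + 1 → |ψ| ≤ ψ0 → |ψ'| ≤ ψ0 →
      ENNReal.ofReal (c * κ⁻¹ * Real.exp (-(κ * (r + r'))))
        ≤ Lh k κ (r * exp (ψ * I)) (r' * exp (ψ' * I)) ∧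
      Lh k κ (r * exp (ψ * I)) (r' * exp (ψ' * I))
        ≤ ENNReal.ofReal (C * κ⁻¹ * Real.exp (-(κ * (r + r'))))) :
    ∃ ρ c C κ0 : ℝ, 0 < ρ ∧ 0 < c ∧ 0 < C ∧ 0 < κ0 ∧ BX k a b ρ c C κ0 := by
  obtain ⟨ψ0, c, C, κ0, h1, h2, h3, h4, h5⟩ := h
  have hψ : 0 < min ψ0 1 := lt_min h1 one_pos
  have hψ2 : min ψ0 1 < Real.pi / 2 := lt_of_le_of_lt (min_le_right _ _)
    (by linarith [Real.pi_gt_three])
  have hs : 0 < Real.sin (min ψ0 1) := Real.sin_pos_of_pos_of_lt_pi hψ (by linarith [Real.pi_pos])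
  refine ⟨min 1 (a * Real.sin (min ψ0 1)), c, C, κ0, lt_min one_pos (mul_pos ha hs), h2, h3, h4, ?_⟩
  intro κ x y hκ hx hy
  have hx1 := box_norm ha hx
  have hy1 := box_norm ha hy
  have hx2 := box_arg ha hψ hψ2 (min_le_right _ _) hx
  have hy2 := box_arg ha hψ hψ2 (min_le_right _ _) hy
  have h6 := h5 κ ‖x‖ ‖y‖ (arg x) (arg y) hκ hx1.1 (hx1.2.trans (by linarith [min_le_left 1 (a * Real.sin (min ψ0 1))]))
    hy1.1 (hy1.2.trans (by linarith [min_le_left 1 (a * Real.sin (min ψ0 1))]))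
    (hx2.trans (min_le_left _ _)) (hy2.trans (min_le_left _ _))
  rwa [Complex.norm_mul_exp_arg_mul_I, Complex.norm_mul_exp_arg_mul_I] at h6

theorem BX.mono {k : ℝ → ℂ → ℂ → ℝ} {a b ρ c C κ0 ρ' c' C' κ0' : ℝ} (h : BX k a b ρ c C κ0)
    (h1 : ρ' ≤ ρ) (h2 : c' ≤ c) (h3 : C ≤ C') (h4 : κ0 ≤ κ0') (h5 : 0 < κ0) :
    BX k a b ρ' c' C' κ0' := by
  intro κ x y hκ hx hy
  obtain ⟨h6, h7⟩ := h κ x y (h4.trans hκ) ⟨hx.1, hx.2.1, hx.2.2.trans_le h1⟩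
    ⟨hy.1, hy.2.1, hy.2.2.trans_le h1⟩
  have hk : 0 < κ⁻¹ := inv_pos.2 (h5.trans_le (h4.trans hκ))
  refine ⟨le_trans (ENNReal.ofReal_le_ofReal ?_) h6, le_trans h7 (ENNReal.ofReal_le_ofReal ?_)⟩
  · gcongr
  · gcongr

/-- Laplace transforms of equal kernels -/
theorem Lh_congr {k k' : ℝ → ℂ → ℂ → ℝ} {κ : ℝ} {x y x' y' : ℂ}
    (h : ∀ t : ℝ, 0 < t → k t x y = k' t x' y') : Lh k κ x y = Lh k' κ x' y' := by
  unfold Lh
  refine setLIntegral_congr_fun measurableSet_Ioi fun t ht => ?_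
  simp only [Set.mem_Ioi] at ht
  simp only [h t ht]

/-- transfer of a corner -/
theorem corner (hcvv : CvvStatement) (hcva : CvaStatement) (htrf : TrfStatement)
    {η1 η2 : ℝ} (e1 : 0 < η1) (e2 : 0 < η2) (e3 : Real.pi / 2 < η1 + η2) (e4 : η1 + η2 < Real.pi)
    (e5 : η1 ≠ Real.pi / 2) (e6 : η2 < Real.pi / 2)
    (u : Fin 4 → ℂ) (h : Fin 4 → ℝ) (g : ℂ ≃ᵢ ℂ) (s1 s2 : Fin 4) (hs : s1 ≠ s2)
    (g1 : ∀ x, ip (u s1) (g x) - h s1 = ip (H60K.us η1 η2 1) x)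
    (g2 : ∀ x, ip (u s2) (g x) - h s2 = ip (H60K.us η1 η2 2) x) {a b : ℝ} (ha : 0 < a)
    (hab : a < b) :
    ∃ ρ c C κ0 : ℝ, 0 < ρ ∧ 0 < c ∧ 0 < C ∧ 0 < κ0 ∧
      BX (fun t x y => kME u h (if η1 < Real.pi / 2 then {s1, s2} else {s1})
        (if η1 < Real.pi / 2 then ∅ else {s2}) t (g x) (g y)) a b ρ c C κ0 := by
  by_cases hη : η1 < Real.pi / 2
  · obtain ⟨ρ, c, C, κ0, h1, h2, h3, h4, h5⟩ := box_of ha
      (hcvv η1 η2 a (b + 1) e1 hη e2 e6 e3 ha (by linarith))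
    refine ⟨ρ, c, C, κ0, h1, h2, h3, h4, ?_⟩
    simp only [if_pos hη]
    intro κ x y hκ hx hy
    have h6 := h5 κ x y hκ hx hy
    rwa [Lh_congr (k' := fun t x y => kME u h {s1, s2} ∅ t (g x) (g y)) (x' := x) (y' := y)
      fun t ht => (htrf u h g s1 s2 η1 η2 hs g1 g2 t x y ht).1.symm] at h6
  · have hη' : Real.pi / 2 < η1 := lt_of_le_of_ne (not_lt.1 hη) (Ne.symm e5)
    obtain ⟨ρ, c, C, κ0, h1, h2, h3, h4, h5⟩ := box_of ha
      (hcva η1 η2 a (b + 1) hη' e2 e4 ha (by linarith))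
    refine ⟨ρ, c, C, κ0, h1, h2, h3, h4, ?_⟩
    simp only [if_neg hη]
    intro κ x y hκ hx hy
    have h6 := h5 κ x y hκ hx hy
    rwa [Lh_congr (k' := fun t x y => kME u h {s1} {s2} t (g x) (g y)) (x' := x) (y' := y)
      fun t ht => (htrf u h g s1 s2 η1 η2 hs g1 g2 t x y ht).2.symm] at h6

/-- complex conjugation as an isometry -/
noncomputable def gc : ℂ ≃ᵢ ℂ := Complex.conjLIE.toIsometryEquiv

theorem gc_apply (x : ℂ) : gc x = (starRingEnd ℂ) x := rfl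

theorem ip_conj (a x : ℂ) : ip a ((starRingEnd ℂ) x) = ip ((starRingEnd ℂ) a) x := by
  simp [ip]

theorem ip_sub_r (a x y : ℂ) : ip a (x - y) = ip a x - ip a y := by
  simp only [ip, sub_re, sub_im]; ring

theorem ip_neg_l (a x : ℂ) : ip (-a) x = -ip a x := by
  simp only [ip, neg_re, neg_im]; ring

theorem conj_us1 (η : ℝ) : (starRingEnd ℂ) (I * exp (η * I)) = -(I * exp (-(η * I))) := by
  rw [map_mul, ← Complex.exp_conj, map_mul, Complex.conj_I, Complex.conj_ofReal]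
  simp

theorem conj_us2 (η : ℝ) : (starRingEnd ℂ) (-(I * exp (-(η * I)))) = I * exp (η * I) := by
  rw [← conj_us1, Complex.conj_conj]

theorem u32 (ζ : ℝ) : exp (((Real.pi / 2 - ζ : ℝ) : ℂ) * I) = I * exp (-(ζ * I)) := by
  rw [show ((Real.pi / 2 - ζ : ℝ) : ℂ) * I = (Real.pi : ℂ) / 2 * I + -(ζ * I) by push_cast; ring,
    Complex.exp_add, Complex.exp_pi_div_two_mul_I]

theorem u33 (ζ : ℝ) : exp (((-(Real.pi / 2 - ζ) : ℝ) : ℂ) * I) = -(I * exp (ζ * I)) := by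
  rw [show ((-(Real.pi / 2 - ζ) : ℝ) : ℂ) * I = -(Real.pi : ℂ) / 2 * I + (ζ * I) by push_cast; ring,
    Complex.exp_add, show (-(Real.pi : ℂ) / 2 * I) = -((Real.pi : ℂ) / 2 * I) by ring,
    Complex.exp_neg, Complex.exp_pi_div_two_mul_I, Complex.inv_I]
  ring

/-- corner `0` -/
theorem corner_v (hcvv : CvvStatement) (hcva : CvaStatement) (htrf : TrfStatement)
    {η1 η2 ζ1 ζ2 d : ℝ} (hy : Hy3 η1 η2 ζ1 ζ2 d) {a b : ℝ} (ha : 0 < a) (hab : a < b) :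
    ∃ ρ c C κ0 : ℝ, 0 < ρ ∧ 0 < c ∧ 0 < C ∧ 0 < κ0 ∧
      BX (kME (u3 η1 η2 ζ1 ζ2) (h3 ζ1 ζ2 d) (Mv η1 η2) (Ev η1 η2)) a b ρ c C κ0 := by
  by_cases h2 : η2 < Real.pi / 2
  · obtain ⟨ρ, c, C, κ0, k1, k2, k3, k4, k5⟩ := corner hcvv hcva htrf hy.a1 hy.a2 hy.a3 hy.a4 hy.a5 h2
      (u3 η1 η2 ζ1 ζ2) (h3 ζ1 ζ2 d) (IsometryEquiv.refl ℂ) 0 1 (by decide)
      (fun x => by
        change ip _ x - _ = _
        simp [u3, h3, H60K.us])
      (fun x => by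
        change ip _ x - _ = _
        simp [u3, h3, H60K.us]) ha hab
    refine ⟨ρ, c, C, κ0, k1, k2, k3, k4, ?_⟩
    have e1 : Mv η1 η2 = if η1 < Real.pi / 2 then {0, 1} else {0} := by
      unfold Mv
      by_cases h : η1 < Real.pi / 2
      · simp only [if_pos h2, if_pos h]; rfl
      · simp only [if_pos h2, if_neg h]; rfl
    have e2 : Ev η1 η2 = if η1 < Real.pi / 2 then ∅ else {1} := by
      unfold Ev
      by_cases h : η1 < Real.pi / 2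
      · simp only [if_pos h2, if_pos h]; rfl
      · simp only [if_pos h2, if_neg h]; rfl
    rw [e1, e2]
    exact k5
  · have h2' : Real.pi / 2 < η2 := lt_of_le_of_ne (not_lt.1 h2) (Ne.symm hy.a6)
    have h1 : η1 < Real.pi / 2 := by linarith [hy.a4]
    obtain ⟨ρ, c, C, κ0, k1, k2, k3, k4, k5⟩ := corner hcvv hcva htrf hy.a2 hy.a1
      (by linarith [hy.a3]) (by linarith [hy.a4]) hy.a6 h1
      (u3 η1 η2 ζ1 ζ2) (h3 ζ1 ζ2 d) gc 1 0 (by decide)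
      (fun x => by
        rw [gc_apply, ip_conj]
        simp only [u3, h3, H60K.us, Matrix.cons_val_zero, Matrix.cons_val_one, sub_zero]
        rw [conj_us2]
        simp)
      (fun x => by
        rw [gc_apply, ip_conj]
        simp only [u3, h3, H60K.us, Matrix.cons_val_zero, Matrix.cons_val_one, sub_zero]
        rw [conj_us1]
        simp) ha hab
    refine ⟨ρ, c, C, κ0, k1, k2, k3, k4, ?_⟩
    have e1 : Mv η1 η2 = {1} := by
      unfold Mv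
      simp only [if_neg h2, if_pos h1]; rfl
    have e2 : Ev η1 η2 = {0} := by
      unfold Ev
      simp only [if_neg h2, if_pos h1]; rfl
    rw [e1, e2]
    simp only [if_neg h2] at k5
    intro κ x y hκ hx hy
    have k6 := k5 κ (gc x) (gc y) hκ ⟨by simpa [gc_apply] using hx.1, by simpa [gc_apply] using hx.2.1,
      by simpa [gc_apply] using hx.2.2⟩ ⟨by simpa [gc_apply] using hy.1,
      by simpa [gc_apply] using hy.2.1, by simpa [gc_apply] using hy.2.2⟩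
    have e3 : ∀ x : ℂ, gc (gc x) = x := fun x => by simp [gc_apply]
    have e4 : ∀ x : ℂ, ‖gc x‖ = ‖x‖ := fun x => by simp [gc_apply]
    rw [e4, e4, Lh_congr (k' := kME (u3 η1 η2 ζ1 ζ2) (h3 ζ1 ζ2 d) {1} {0}) (x' := x) (y' := y)
      fun t ht => by rw [e3, e3]] at k6
    exact k6

/-- corner `d` -/
theorem corner_w (hcvv : CvvStatement) (hcva : CvaStatement) (htrf : TrfStatement)
    {η1 η2 ζ1 ζ2 d : ℝ} (hy : Hy3 η1 η2 ζ1 ζ2 d) {a b : ℝ} (ha : 0 < a) (hab : a < b) :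
    ∃ ρ c C κ0 : ℝ, 0 < ρ ∧ 0 < c ∧ 0 < C ∧ 0 < κ0 ∧
      ∀ (κ : ℝ) (x y : ℂ), κ0 ≤ κ → d - x ∈ Rct a b ρ → d - y ∈ Rct a b ρ →
      ENNReal.ofReal (c * κ⁻¹ * Real.exp (-(κ * (‖x - d‖ + ‖y - d‖))))
        ≤ Lh (kME (u3 η1 η2 ζ1 ζ2) (h3 ζ1 ζ2 d) (Mw ζ1 ζ2) (Ew ζ1 ζ2)) κ x y ∧
      Lh (kME (u3 η1 η2 ζ1 ζ2) (h3 ζ1 ζ2 d) (Mw ζ1 ζ2) (Ew ζ1 ζ2)) κ x y
        ≤ ENNReal.ofReal (C * κ⁻¹ * Real.exp (-(κ * (‖x - d‖ + ‖y - d‖)))) := by
  by_cases h2 : ζ2 < Real.pi / 2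
  · obtain ⟨ρ, c, C, κ0, k1, k2, k3, k4, k5⟩ := corner hcvv hcva htrf hy.b1 hy.b2 hy.b3 hy.b4 hy.b5 h2
      (u3 η1 η2 ζ1 ζ2) (h3 ζ1 ζ2 d) (gc.trans (IsometryEquiv.subLeft (d : ℂ))) 2 3 (by decide)
      (fun x => by
        simp only [IsometryEquiv.trans_apply, IsometryEquiv.subLeft_apply, gc_apply, ip_sub_r, ip_conj]
        simp only [u3, h3, H60K.us, Matrix.cons_val]
        rw [u32]
        have e : (starRingEnd ℂ) (I * exp (-((ζ1 : ℂ) * I))) = -(I * exp (ζ1 * I)) := by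
          rw [← conj_us2, map_neg, neg_neg]
        rw [e, ip_neg_l]
        simp)
      (fun x => by
        simp only [IsometryEquiv.trans_apply, IsometryEquiv.subLeft_apply, gc_apply, ip_sub_r, ip_conj]
        simp only [u3, h3, H60K.us, Matrix.cons_val]
        rw [u33, map_neg, conj_us1, neg_neg]
        simp [ip_neg_l]
        ring) ha hab
    refine ⟨ρ, c, C, κ0, k1, k2, k3, k4, ?_⟩
    have e1 : Mw ζ1 ζ2 = if ζ1 < Real.pi / 2 then {2, 3} else {2} := by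
      unfold Mw
      by_cases h : ζ1 < Real.pi / 2
      · simp only [if_pos h2, if_pos h]; rfl
      · simp only [if_pos h2, if_neg h]; rfl
    have e2 : Ew ζ1 ζ2 = if ζ1 < Real.pi / 2 then ∅ else {3} := by
      unfold Ew
      by_cases h : ζ1 < Real.pi / 2
      · simp only [if_pos h2, if_pos h]; rfl
      · simp only [if_pos h2, if_neg h]; rfl
    rw [e1, e2]
    intro κ x y hκ hx hy
    have e3 : ∀ x : ℂ, d - x ∈ Rct a b ρ → gc (d - x) ∈ Rct a b ρ := fun x hx =>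
      ⟨by simpa [gc_apply] using hx.1, by simpa [gc_apply] using hx.2.1,
        by simpa [gc_apply, abs_sub_comm] using hx.2.2⟩
    have k6 := k5 κ (gc (d - x)) (gc (d - y)) hκ (e3 x hx) (e3 y hy)
    have e4 : ∀ x : ℂ, ‖gc (d - x)‖ = ‖x - d‖ := fun x => by
      rw [gc_apply, Complex.norm_conj, norm_sub_rev]
    have e5 : ∀ x : ℂ, (gc.trans (IsometryEquiv.subLeft (d : ℂ))) (gc (d - x)) = x := fun x => by
      simp [gc_apply]
    rw [e4, e4, Lh_congr (k' := kME (u3 η1 η2 ζ1 ζ2) (h3 ζ1 ζ2 d)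
      (if ζ1 < Real.pi / 2 then {2, 3} else {2}) (if ζ1 < Real.pi / 2 then ∅ else {3}))
      (x' := x) (y' := y)
      fun t ht => by rw [e5, e5]] at k6
    exact k6
  · have h2' : Real.pi / 2 < ζ2 := lt_of_le_of_ne (not_lt.1 h2) (Ne.symm hy.b6)
    have h1 : ζ1 < Real.pi / 2 := by linarith [hy.b4]
    obtain ⟨ρ, c, C, κ0, k1, k2, k3, k4, k5⟩ := corner hcvv hcva htrf hy.b2 hy.b1
      (by linarith [hy.b3]) (by linarith [hy.b4]) hy.b6 h1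
      (u3 η1 η2 ζ1 ζ2) (h3 ζ1 ζ2 d) (IsometryEquiv.subLeft (d : ℂ)) 3 2 (by decide)
      (fun x => by
        simp only [IsometryEquiv.subLeft_apply, ip_sub_r]
        simp only [u3, h3, H60K.us, Matrix.cons_val]
        rw [u33]
        simp [ip_neg_l])
      (fun x => by
        simp only [IsometryEquiv.subLeft_apply, ip_sub_r]
        simp only [u3, h3, H60K.us, Matrix.cons_val]
        rw [u32]
        simp [ip_neg_l]) ha hab
    refine ⟨ρ, c, C, κ0, k1, k2, k3, k4, ?_⟩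
    have e1 : Mw ζ1 ζ2 = {3} := by
      unfold Mw
      simp only [if_neg h2, if_pos h1]; rfl
    have e2 : Ew ζ1 ζ2 = {2} := by
      unfold Ew
      simp only [if_neg h2, if_pos h1]; rfl
    rw [e1, e2]
    simp only [if_neg h2] at k5
    intro κ x y hκ hx hy
    have k6 := k5 κ (d - x) (d - y) hκ hx hy
    have e5 : ∀ x : ℂ, (IsometryEquiv.subLeft (d : ℂ)) (d - x) = x := fun x => by simp
    rw [norm_sub_rev (d : ℂ) x, norm_sub_rev (d : ℂ) y,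
      Lh_congr (k' := kME (u3 η1 η2 ζ1 ζ2) (h3 ζ1 ζ2 d) {3} {2}) (x' := x) (y' := y)
      fun t ht => by rw [e5, e5]] at k6
    exact k6

/-- module CR3 -/
theorem cr3 (hcvv : CvvStatement) (hcva : CvaStatement) (htrf : TrfStatement) : Cr3Statement := by
  intro η1 η2 ζ1 ζ2 d hy
  have hd := hy.dpos
  obtain ⟨ρ, c, C, κ0, k1, k2, k3, k4, k5⟩ := corner_v hcvv hcva htrf hy
    (a := 7 / 20 * d) (b := 13 / 20 * d) (by positivity) (by linarith)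
  obtain ⟨ρ', c', C', κ0', m1, m2, m3, m4, m5⟩ := corner_w hcvv hcva htrf hy
    (a := 7 / 20 * d) (b := 13 / 20 * d) (by positivity) (by linarith)
  refine ⟨min ρ ρ', min c c', max C C', max κ0 κ0', lt_min k1 m1, lt_min k2 m2,
    lt_max_of_lt_left k3, lt_max_of_lt_left k4, ?_⟩
  intro κ x y z hκ hx hz hy'
  have hκ1 : κ0 ≤ κ := (le_max_left _ _).trans hκ
  have hκ2 : κ0' ≤ κ := (le_max_right _ _).trans hκ
  have hκ0 : 0 < κ := k4.trans_le hκ1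
  have hki : 0 < κ⁻¹ := inv_pos.2 hκ0
  simp only [S3, Matrix.cons_val_zero, Matrix.cons_val_one, Matrix.cons_val] at hx hz hy'
  obtain ⟨x1, x2, x3⟩ := hx
  obtain ⟨z1, z2, z3⟩ := hz
  obtain ⟨y1, y2, y3⟩ := hy'
  have hxl := x3.trans_le (min_le_left _ _)
  have hxr := x3.trans_le (min_le_right _ _)
  have hzr := z3.trans_le (min_le_right _ _)
  have hyl := y3.trans_le (min_le_left _ _)
  obtain ⟨p1, p2⟩ := m5 κ x z hκ2
    ⟨by simp only [sub_re, ofReal_re]; linarith, by simp only [sub_re, ofReal_re]; linarith,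
      by simpa using hxr⟩
    ⟨by simp only [sub_re, ofReal_re]; linarith, by simp only [sub_re, ofReal_re]; linarith,
      by simpa using hzr⟩
  obtain ⟨q1, q2⟩ := k5 κ y x hκ1 ⟨by linarith, by linarith, hyl⟩ ⟨by linarith, by linarith, hxl⟩
  refine ⟨⟨le_trans (ENNReal.ofReal_le_ofReal ?_) p1, le_trans p2 (ENNReal.ofReal_le_ofReal ?_)⟩,
    le_trans (ENNReal.ofReal_le_ofReal ?_) q1, le_trans q2 (ENNReal.ofReal_le_ofReal ?_)⟩
  · have := min_le_right c c'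
    gcongr
  · have := le_max_right C C'
    gcongr
  · have := min_le_left c c'
    gcongr
  · have := le_max_left C C'
    gcongr

end Pool.Agent.XQ.K4.H32
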