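import Pool.Agent.Helper32_XQ.Cr3

/-!
Squad XQ (MP_5b0138_an), part A4, module CR4 (helper32): the kernels of the three arcs of G4.
-/

set_option autoImplicit false

namespace Pool.Agent.XQ.K4.H32

open MeasureTheory Complex Filter Topology ProbabilityTheory Pool.Agent.H16Iso Pool.Agent.H62T
  Pool.Agent.H16F Pool.Agent.H38KL Pool.Agent.AEU Pool.Agent.XQ.K4
open scoped ENNReal NNReal

theorem kME_symm (u : Fin 4 → ℂ) (h : Fin 4 → ℝ) (M E : Finset (Fin 4)) {t : ℝ} (ht : 0 < t)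
    (x y : ℂ) : kME u h M E t x y = kME u h M E t y x := by
  unfold kME pB
  refine Finset.sum_congr rfl fun B _ => ?_
  rw [((H8.pdk _ (dm_open u h _)).2 t ht).2.2.1 x y]

theorem kME_symm3 (u : Fin 3 → ℂ) (h : Fin 3 → ℝ) (M E : Finset (Fin 3)) {t : ℝ} (ht : 0 < t)
    (x y : ℂ) : H60K.kME u h M E t x y = H60K.kME u h M E t y x := by
  unfold H60K.kME H60K.pB
  have ho : ∀ B : Finset (Fin 3), IsOpen (H60K.Dm u h B) := by
    intro B
    have : H60K.Dm u h B = ⋂ s ∈ B, {x | ip (u s) x < h s} := by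
      ext x
      simp [H60K.Dm]
    rw [this]
    exact isOpen_biInter_finset fun s _ => isOpen_lt (ip_cont _) continuous_const
  refine Finset.sum_congr rfl fun B _ => ?_
  rw [((H8.pdk _ (ho _)).2 t ht).2.2.1 x y]

/-- the corner kernel with one end point near the avoided side -/
theorem cea_box (hcea : CeaStatement) {α θ : ℝ} (e1 : Real.pi / 2 < α) (e2 : α < Real.pi)
    (e3 : 0 < θ) (e4 : θ < 2 * α - Real.pi) {a b a' b' : ℝ} (ha : 0 < a) (hab : a < b)
    (ha' : 0 < a') :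
    ∃ ρ c C κ0 : ℝ, 0 < ρ ∧ 0 < c ∧ 0 < C ∧ 0 < κ0 ∧ ∀ (κ : ℝ) (X Y : ℂ), κ0 ≤ κ →
      X ∈ RcU a b ρ → Y ∈ Rct a' b' ρ →
      ENNReal.ofReal (c * X.im * κ⁻¹ * Real.exp (-(κ * (‖X‖ + ‖Y‖))))
        ≤ Lh (H60K.kME (H60K.us (α - θ) θ) (H60K.hh 1) {1} {2}) κ (exp (-(θ * I)) * X) Y ∧
      Lh (H60K.kME (H60K.us (α - θ) θ) (H60K.hh 1) {1} {2}) κ (exp (-(θ * I)) * X) Y
        ≤ ENNReal.ofReal (C * X.im * κ⁻¹ * Real.exp (-(κ * (‖X‖ + ‖Y‖)))) := by
  have hr0 : 0 < min a a' := lt_min ha ha'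
  have hr1 : min a a' < max b b' + 1 := by
    have := min_le_left a a'
    have := le_max_left b b'
    linarith
  obtain ⟨ψ0, c, C, κ0, h1, h2, h3, h4, h5⟩ := hcea α θ (min a a') (max b b' + 1) e1 e2 e3 e4 hr0 hr1
  have hψ : 0 < min ψ0 1 := lt_min h1 one_pos
  have hψ2 : min ψ0 1 < Real.pi / 2 := lt_of_le_of_lt (min_le_right _ _)
    (by linarith [Real.pi_gt_three])
  have hs : 0 < Real.sin (min ψ0 1) := Real.sin_pos_of_pos_of_lt_pi hψ (by linarith [Real.pi_pos])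
  have hr1' : 0 < max b b' + 1 := hr0.trans hr1
  refine ⟨min 1 (min a a' * Real.sin (min ψ0 1)), c / (max b b' + 1), C * (Real.pi / 2) / min a a', κ0,
    lt_min one_pos (mul_pos hr0 hs), by positivity, by positivity, h4, ?_⟩
  intro κ X Y hκ hX hY
  have hκ0 : 0 < κ := h4.trans_le hκ
  obtain ⟨X1, X2, X3, X4⟩ := hX
  have hXb : X ∈ Rct a b (min 1 (min a a' * Real.sin (min ψ0 1))) :=
    ⟨X1, X2, by rwa [abs_of_pos X3]⟩
  have hm : min 1 (min a a' * Real.sin (min ψ0 1)) ≤ 1 := min_le_left _ _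
  have hm1 : min 1 (min a a' * Real.sin (min ψ0 1)) ≤ a * Real.sin (min ψ0 1) :=
    (min_le_right _ _).trans (mul_le_mul_of_nonneg_right (min_le_left _ _) hs.le)
  have hm2 : min 1 (min a a' * Real.sin (min ψ0 1)) ≤ a' * Real.sin (min ψ0 1) :=
    (min_le_right _ _).trans (mul_le_mul_of_nonneg_right (min_le_right _ _) hs.le)
  have hx1 := box_norm ha hXb
  have hy1 := box_norm ha' hY
  have hx2 := box_arg ha hψ hψ2 hm1 hXb
  have hy2 := box_arg ha' hψ hψ2 hm2 hY
  have hXn : 0 < ‖X‖ := ha.trans_le hx1.1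
  have hsa : Real.sin (arg X) = X.im / ‖X‖ := Complex.sin_arg X
  have ha0 : 0 ≤ arg X := Complex.arg_nonneg_iff.2 X3.le
  have hap : 0 < arg X := by
    refine lt_of_le_of_ne ha0 fun h => ?_
    rw [← h, Real.sin_zero] at hsa
    exact absurd hsa.symm (div_pos X3 hXn).ne'
  have ha1 : arg X ≤ min ψ0 1 := (le_abs_self _).trans hx2
  have h6 := h5 κ ‖X‖ ‖Y‖ (arg X) (arg Y) hκ ((min_le_left _ _).trans hx1.1)
    (hx1.2.trans (by linarith [le_max_left b b'])) ((min_le_right _ _).trans hy1.1)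
    (hy1.2.trans (by linarith [le_max_right b b'])) hap
    (ha1.trans (min_le_left _ _)) (hy2.trans (min_le_left _ _))
  have e5 : (‖X‖ : ℂ) * exp (((arg X - θ : ℝ) : ℂ) * I) = exp (-(θ * I)) * X := by
    conv_rhs => rw [← Complex.norm_mul_exp_arg_mul_I X]
    rw [show ((arg X - θ : ℝ) : ℂ) * I = arg X * I + -(θ * I) by push_cast; ring, Complex.exp_add]
    ring
  rw [Complex.norm_mul_exp_arg_mul_I, e5] at h6
  have hlow : X.im / (max b b' + 1) ≤ arg X := by
    calc X.im / (max b b' + 1) ≤ X.im / ‖X‖ := by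
          apply div_le_div_of_nonneg_left X3.le hXn
          linarith [hx1.2, le_max_left b b']
      _ = Real.sin (arg X) := hsa.symm
      _ ≤ arg X := Real.sin_le ha0
  have hup : arg X ≤ Real.pi / 2 / min a a' * X.im := by
    have k1 := Real.mul_le_sin ha0 (ha1.trans hψ2.le)
    rw [hsa] at k1
    have k2 : X.im / ‖X‖ ≤ X.im / min a a' := by
      apply div_le_div_of_nonneg_left X3.le hr0
      exact (min_le_left _ _).trans hx1.1
    have k3 : arg X = Real.pi / 2 * (2 / Real.pi * arg X) := by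
      field_simp
    rw [k3]
    calc Real.pi / 2 * (2 / Real.pi * arg X) ≤ Real.pi / 2 * (X.im / min a a') :=
          mul_le_mul_of_nonneg_left (k1.trans k2) (by positivity)
      _ = Real.pi / 2 / min a a' * X.im := by ring
  refine ⟨le_trans (ENNReal.ofReal_le_ofReal ?_) h6.1, le_trans h6.2 (ENNReal.ofReal_le_ofReal ?_)⟩
  · have : c / (max b b' + 1) * X.im ≤ c * arg X := by
      calc c / (max b b' + 1) * X.im = c * (X.im / (max b b' + 1)) := by ring
        _ ≤ c * arg X := mul_le_mul_of_nonneg_left hlow h2.le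
    gcongr
  · have : C * arg X ≤ C * (Real.pi / 2) / min a a' * X.im := by
      calc C * arg X ≤ C * (Real.pi / 2 / min a a' * X.im) := mul_le_mul_of_nonneg_left hup h3.le
        _ = _ := by ring
    gcongr

/-- multiplication by `exp (θ I)` -/
noncomputable def gr (θ : ℝ) : ℂ ≃ᵢ ℂ := (rotation (Circle.exp θ)).toIsometryEquiv

theorem gr_apply (θ : ℝ) (x : ℂ) : gr θ x = exp (θ * I) * x := by
  change rotation (Circle.exp θ) x = _
  rw [rotation_apply, Circle.coe_exp]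

/-- the reflected isometry at the corner `d` -/
noncomputable def gd (θ d : ℝ) : ℂ ≃ᵢ ℂ := ((gr θ).trans gc).trans (IsometryEquiv.subLeft (d : ℂ))

theorem gd_apply (θ d : ℝ) (x : ℂ) : gd θ d x = d - (starRingEnd ℂ) (exp (θ * I) * x) := by
  change (d : ℂ) - gc (gr θ x) = _
  rw [gr_apply, gc_apply]

theorem ip_rot (u x : ℂ) (θ : ℝ) : ip u (exp (θ * I) * x) = ip (exp (-(θ * I)) * u) x := by
  have h1 : ip u (exp (θ * I) * x) = ((starRingEnd ℂ) u * (exp (θ * I) * x)).re := by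
    simp [ip, mul_re]
  have h2 : ip (exp (-(θ * I)) * u) x = ((starRingEnd ℂ) (exp (-(θ * I)) * u) * x).re := by
    simp only [ip, mul_re, conj_re, conj_im]
    ring
  rw [h1, h2, map_mul, ← Complex.exp_conj]
  congr 1
  simp only [map_neg, map_mul, Complex.conj_I, Complex.conj_ofReal, mul_neg, neg_neg]
  ring

theorem abs_ip_le {u : ℂ} (hu : ‖u‖ = 1) (x : ℂ) : |ip u x| ≤ ‖x‖ := by
  have h1 : ip u x = ((starRingEnd ℂ) u * x).re := by
    simp [ip, mul_re]
  rw [h1]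
  refine (Complex.abs_re_le_norm _).trans ?_
  rw [norm_mul, Complex.norm_conj, hu, one_mul]

theorem norm_exp_real (x : ℝ) : ‖exp ((x : ℂ) * I)‖ = 1 := Complex.norm_exp_ofReal_mul_I x

theorem ip_mid1 {σ p ρ : ℝ} (hs : 0 < Real.sin σ) (hρ : ρ ≤ Real.sin σ * p / 4)
    {z : ℂ} (hz : z ∈ Rct (9 / 20 * p) (11 / 20 * p) ρ) :
    ip (exp (((Real.pi / 2 - σ : ℝ) : ℂ) * I)) (z - p) ≤ -(Real.sin σ * p / 5) := by
  obtain ⟨z1, z2, z3⟩ := hz
  have e1 : (exp (((Real.pi / 2 - σ : ℝ) : ℂ) * I)).re = Real.sin σ := by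
    rw [Complex.exp_ofReal_mul_I_re, Real.cos_pi_div_two_sub]
  have e2 : (exp (((Real.pi / 2 - σ : ℝ) : ℂ) * I)).im = Real.cos σ := by
    rw [Complex.exp_ofReal_mul_I_im, Real.sin_pi_div_two_sub]
  unfold ip
  rw [e1, e2, sub_re, sub_im, ofReal_re, ofReal_im, sub_zero]
  have h1 : Real.cos σ * z.im ≤ |z.im| := by
    calc Real.cos σ * z.im ≤ |Real.cos σ * z.im| := le_abs_self _
      _ = |Real.cos σ| * |z.im| := abs_mul _ _
      _ ≤ 1 * |z.im| := mul_le_mul_of_nonneg_right (Real.abs_cos_le_one σ) (abs_nonneg _)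
      _ = |z.im| := one_mul _
  have h2 : Real.sin σ * (z.re - p) ≤ Real.sin σ * (-(9 / 20 * p)) :=
    mul_le_mul_of_nonneg_left (by linarith only [z2]) hs.le
  linarith only [hρ, z3, h1, h2]

theorem ip_add_r (a x y : ℂ) : ip a (x + y) = ip a x + ip a y := by
  simp only [ip, add_re, add_im]; ring

/-- module CR4 -/
theorem cr4 (hcea : CeaStatement) (htrf : TrfStatement) (hmid : MidStatement) : Cr4Statement := by
  intro α α' θ θ' d a hy
  obtain ⟨p, hp, hap⟩ := hy.ea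
  obtain ⟨p', hp', hap'⟩ := hy.ea'
  have hna : ‖a‖ = p := by
    rw [hap, norm_mul, norm_exp_real, mul_one, Complex.norm_of_nonneg hp.le]
  have hna' : ‖a - d‖ = p' := by
    rw [hap', sub_sub_cancel_left, norm_neg, norm_mul,
      show -(θ' * I : ℂ) = ((-θ' : ℝ) : ℂ) * I by push_cast; ring, norm_exp_real, mul_one,
      Complex.norm_of_nonneg hp'.le]
  have hd := hy.dpos
  set σ : ℝ := (θ + θ') / 2 with hσ
  have hs : 0 < Real.sin σ := Real.sin_pos_of_pos_of_lt_pi (by linarith [hy.c1, hy.c3])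
    (by linarith [hy.tri, Real.pi_pos])
  obtain ⟨ρ1, c1, C1, κ1, a1, a2, a3, a4, a5⟩ := cea_box hcea (α := α) (θ := θ) hy.a1 hy.a2 hy.c1 hy.c2
    (a := 9 / 20 * d) (b := 11 / 20 * d) (a' := 9 / 20 * ‖a‖) (b' := 11 / 20 * ‖a‖)
    (by positivity) (by linarith) (by rw [hna]; positivity)
  obtain ⟨ρ2, c2, C2, κ2, b1, b2, b3, b4, b5⟩ := cea_box hcea (α := α') (θ := θ') hy.b1 hy.b2 hy.c3 hy.c4
    (a := 9 / 20 * d) (b := 11 / 20 * d) (a' := 9 / 20 * ‖a - d‖) (b' := 11 / 20 * ‖a - d‖)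
    (by positivity) (by linarith) (by rw [hna']; positivity)
  set u := u4 α α' θ θ' with hu
  set h := h4 α' θ θ' d a with hh
  have hu3 : u 3 = exp (((Real.pi / 2 + (θ - θ') / 2 : ℝ) : ℂ) * I) := rfl
  have hh3 : h 3 = ip (u 3) a := rfl
  have hun : ‖u 3‖ = 1 := by rw [hu3, norm_exp_real]
  have huu : ip (u 3) (u 3) = 1 := by
    have : ip (u 3) (u 3) = ‖u 3‖ ^ 2 := by
      rw [← Complex.normSq_eq_norm_sq, Complex.normSq_apply]; rfl
    rw [this, hun]; norm_num
  have hr0 : 0 < Real.sin σ * (p + p') / 5 := by positivity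
  have hr1 : Real.sin σ * (p + p') / 5 < (d + p' + 1) + (p + 1) + 2 * ((p + 1) + |h 3|) := by
    have := Real.sin_le_one σ
    have := abs_nonneg (h 3)
    linarith only [hp, hp', hd, this, mul_le_mul_of_nonneg_right this (by positivity : (0:ℝ) ≤ p + p'),
      mul_le_mul_of_nonneg_right (Real.sin_le_one σ) (by positivity : (0:ℝ) ≤ p + p')]
  obtain ⟨c3, C3, κ3, d1, d2, d3, d4⟩ := hmid.2.2 _ _ hr0 hr1
  refine ⟨min (min ρ1 ρ2) (min 1 (min (Real.sin σ * p / 4) (Real.sin σ * p' / 4))),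
    lt_min (lt_min a1 b1) (lt_min one_pos (lt_min (by positivity) (by positivity))), ?_⟩
  intro ρ hρ0 hρ
  obtain ⟨hρ12, hρ3⟩ := lt_min_iff.1 hρ
  obtain ⟨hρ1, hρ2⟩ := lt_min_iff.1 hρ12
  obtain ⟨hρ4, hρ5⟩ := lt_min_iff.1 hρ3
  obtain ⟨hρ6, hρ7⟩ := lt_min_iff.1 hρ5
  refine ⟨min (min c1 c2) c3, max (max C1 C2) C3, max (max κ1 κ2) κ3, lt_min (lt_min a2 b2) d1,
    lt_max_of_lt_right d2, lt_max_of_lt_right d3, ?_⟩
  intro κ x y z hκ hx hz hy'
  obtain ⟨hκ12, hκ3⟩ := max_le_iff.1 hκ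
  obtain ⟨hκ1, hκ2⟩ := max_le_iff.1 hκ12
  have hκ0 : 0 < κ := d3.trans_le hκ3
  have hki : 0 < κ⁻¹ := inv_pos.2 hκ0
  simp only [S4, Matrix.cons_val_zero, Matrix.cons_val_one, Matrix.cons_val] at hx hz hy'
  obtain ⟨z', hz', rfl⟩ := hz
  obtain ⟨y', hy'', rfl⟩ := hy'
  obtain ⟨x1, x2, x3, x4⟩ := hx
  have hcc1 : min (min c1 c2) c3 ≤ c1 := (min_le_left _ _).trans (min_le_left _ _)
  have hcc2 : min (min c1 c2) c3 ≤ c2 := (min_le_left _ _).trans (min_le_right _ _)
  have hcc3 : min (min c1 c2) c3 ≤ c3 := min_le_right _ _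
  have hCC1 : C1 ≤ max (max C1 C2) C3 := (le_max_left _ _).trans (le_max_left _ _)
  have hCC2 : C2 ≤ max (max C1 C2) C3 := (le_max_right _ _).trans (le_max_left _ _)
  have hCC3 : C3 ≤ max (max C1 C2) C3 := le_max_right _ _
  refine ⟨?_, ?_, ?_⟩
  · -- corner `d`
    have hX : (d : ℂ) - (starRingEnd ℂ) x ∈ RcU (9 / 20 * d) (11 / 20 * d) ρ2 :=
      ⟨by simp only [sub_re, ofReal_re, conj_re]; linarith only [x2],
        by simp only [sub_re, ofReal_re, conj_re]; linarith only [x1],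
        by simpa using x3, by simpa using x4.trans hρ2⟩
    have hZ : z' ∈ Rct (9 / 20 * ‖a - d‖) (11 / 20 * ‖a - d‖) ρ2 :=
      ⟨hz'.1, hz'.2.1, hz'.2.2.trans hρ2⟩
    obtain ⟨q1, q2⟩ := b5 κ _ _ hκ2 hX hZ
    have g1 : ∀ x, ip (u 2) (gd θ' d x) - h 2 = ip (H60K.us (α' - θ') θ' 1) x := by
      intro x
      have e1 : u 2 = exp (((Real.pi / 2 - α' : ℝ) : ℂ) * I) := rfl
      have e2 : h 2 = ip (u 2) d := rfl
      rw [gd_apply, ip_sub_r, e2, ip_conj, ip_rot, e1, u32]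
      have e3 : (starRingEnd ℂ) (I * exp (-((α' : ℂ) * I))) = -(I * exp (α' * I)) := by
        rw [← conj_us2, map_neg, neg_neg]
      have e4 : exp (-((θ' : ℂ) * I)) * -(I * exp (α' * I))
          = -(H60K.us (α' - θ') θ' 1) := by
        simp only [H60K.us, one_ne_zero, if_false, if_true]
        rw [show (((α' - θ' : ℝ) : ℂ) * I) = α' * I + -(θ' * I) by push_cast; ring, Complex.exp_add]
        ring
      rw [e3, e4, ip_neg_l]
      ring
    have g2 : ∀ x, ip (u 1) (gd θ' d x) - h 1 = ip (H60K.us (α' - θ') θ' 2) x := by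
      intro x
      have e1 : u 1 = -I := by
        change -(I * exp (-(((0 : ℝ) : ℂ) * I))) = -I
        simp
      have e2 : h 1 = 0 := rfl
      rw [gd_apply, ip_sub_r, e2, ip_conj, ip_rot, e1]
      have e3 : ip (-I) (d : ℂ) = 0 := by simp [ip]
      have e4 : exp (-((θ' : ℂ) * I)) * (starRingEnd ℂ) (-I) = -(H60K.us (α' - θ') θ' 2) := by
        simp only [H60K.us, map_neg, conj_I, neg_neg]
        rw [if_neg (by decide), if_neg (by decide)]
        ring
      rw [e3, e4, ip_neg_l]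
      ring
    have ht : ∀ t : ℝ, 0 < t → H60K.kME (H60K.us (α' - θ') θ') (H60K.hh 1) {1} {2} t
        (exp (-(θ' * I)) * ((d : ℂ) - (starRingEnd ℂ) x)) z'
        = kME u h {2} {1} t x (d - (starRingEnd ℂ) (exp (θ' * I) * z')) := by
      intro t ht
      rw [← (htrf u h (gd θ' d) 2 1 _ _ (by decide) g1 g2 t _ _ ht).2]
      rw [gd_apply, gd_apply]
      congr 1
      rw [← mul_assoc, ← Complex.exp_add, add_neg_cancel, Complex.exp_zero, one_mul, map_sub,
        Complex.conj_conj, Complex.conj_ofReal, sub_sub_cancel]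
    rw [Lh_congr ht] at q1 q2
    have n1 : ‖(d : ℂ) - (starRingEnd ℂ) x‖ = ‖x - d‖ := by
      rw [← Complex.norm_conj, map_sub, Complex.conj_conj, Complex.conj_ofReal, norm_sub_rev]
    have n2 : ‖(d : ℂ) - (starRingEnd ℂ) (exp (θ' * I) * z') - d‖ = ‖z'‖ := by
      rw [sub_sub_cancel_left, norm_neg, Complex.norm_conj, norm_mul, norm_exp_real, one_mul]
    have n3 : ((d : ℂ) - (starRingEnd ℂ) x).im = x.im := by simp
    rw [n1, n3] at q1 q2
    rw [n2]
    refine ⟨le_trans (ENNReal.ofReal_le_ofReal ?_) q1, le_trans q2 (ENNReal.ofReal_le_ofReal ?_)⟩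
    · gcongr
    · gcongr
  · -- the middle arc
    have f1 : ip (u 3) (exp (θ * I) * y') - h 3 ≤ -(Real.sin σ * p / 5) := by
      have e1 : exp (-((θ : ℂ) * I)) * u 3 = exp (((Real.pi / 2 - σ : ℝ) : ℂ) * I) := by
        rw [hu3, ← Complex.exp_add]
        congr 1
        rw [hσ]
        push_cast
        ring
      rw [hh3, hap, mul_comm (p : ℂ), ip_rot, ip_rot, ← ip_sub_r, e1]
      rw [hna] at hy''
      exact ip_mid1 hs hρ6.le hy''
    have f2 : ip (u 3) (d - (starRingEnd ℂ) (exp (θ' * I) * z')) - h 3 ≤ -(Real.sin σ * p' / 5) := by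
      have e2 : (d : ℂ) - (starRingEnd ℂ) (exp (θ' * I) * z') - a
          = (starRingEnd ℂ) (exp (θ' * I) * (p' - z')) := by
        have e0 : (starRingEnd ℂ) (exp ((θ' : ℂ) * I)) = exp (-((θ' : ℂ) * I)) := by
          rw [← Complex.exp_conj, map_mul, Complex.conj_ofReal, Complex.conj_I, mul_neg]
        rw [hap', map_mul, map_mul, map_sub, e0, Complex.conj_ofReal]
        ring
      have e1 : exp (-((θ' : ℂ) * I)) * (starRingEnd ℂ) (u 3)
          = -exp (((Real.pi / 2 - σ : ℝ) : ℂ) * I) := by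
        rw [hu3, ← Complex.exp_conj, ← Complex.exp_add, map_mul, Complex.conj_ofReal,
          Complex.conj_I]
        rw [show -((θ' : ℂ) * I) + ((Real.pi / 2 + (θ - θ') / 2 : ℝ) : ℂ) * -I
          = ((Real.pi / 2 - σ : ℝ) : ℂ) * I + -(Real.pi * I) by rw [hσ]; push_cast; ring,
          Complex.exp_add, Complex.exp_neg, Complex.exp_pi_mul_I]
        norm_num
      rw [hh3, ← ip_sub_r, e2, ip_conj, ip_rot, e1, ip_neg_l, ← neg_sub z' (p' : ℂ)]
      have e3 : ∀ v w : ℂ, ip v (-w) = -ip v w := fun v w => by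
        simp only [ip, neg_re, neg_im]; ring
      rw [e3, neg_neg]
      rw [hna'] at hz'
      exact ip_mid1 hs hρ7.le hz'
    have f3 : ∀ y : ℂ, ip (u 3) (rf u h 3 y) = 2 * h 3 - ip (u 3) y := by
      intro y
      have e3 : ∀ (r : ℝ) (v w : ℂ), ip v ((r : ℂ) * w) = r * ip v w := fun r v w => by
        simp only [ip, mul_re, mul_im, ofReal_re, ofReal_im]; ring
      rw [rf, ip_sub_r, e3, huu]
      ring
    have f4 : Real.sin σ * (p + p') / 5
        ≤ ‖d - (starRingEnd ℂ) (exp (θ' * I) * z') - rf u h 3 (exp (θ * I) * y')‖ := by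
      refine le_trans ?_ (abs_ip_le hun _)
      rw [ip_sub_r, f3]
      refine le_trans ?_ (neg_le_abs _)
      linarith only [f1, f2]
    have f5 : ‖d - (starRingEnd ℂ) (exp (θ' * I) * z') - rf u h 3 (exp (θ * I) * y')‖
        ≤ (d + p' + 1) + (p + 1) + 2 * ((p + 1) + |h 3|) := by
      have n1 : ‖exp (θ * I) * y'‖ ≤ p + 1 := by
        rw [norm_mul, norm_exp_real, one_mul]
        have := (box_norm (by rw [hna]; positivity) hy'').2
        rw [hna] at this
        linarith only [hp, hρ4, this]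
      have n2 : ‖d - (starRingEnd ℂ) (exp (θ' * I) * z')‖ ≤ d + p' + 1 := by
        refine (norm_sub_le _ _).trans ?_
        rw [Complex.norm_conj, norm_mul, norm_exp_real, one_mul, Complex.norm_of_nonneg hd.le]
        have := (box_norm (by rw [hna']; positivity) hz').2
        rw [hna'] at this
        linarith only [hp', hρ4, this]
      have n3 : ‖rf u h 3 (exp (θ * I) * y')‖ ≤ (p + 1) + 2 * ((p + 1) + |h 3|) := by
        refine (norm_sub_le _ _).trans (add_le_add n1 ?_)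
        rw [norm_mul, hun, mul_one, Complex.norm_real, Real.norm_eq_abs, abs_mul, abs_two]
        have n4 : |ip (u 3) (exp (θ * I) * y') - h 3| ≤ (p + 1) + |h 3| :=
          (abs_sub _ _).trans (add_le_add ((abs_ip_le hun _).trans n1) le_rfl)
        linarith only [n4]
      refine (norm_sub_le _ _).trans ?_
      linarith only [n2, n3]
    obtain ⟨q1, q2⟩ := d4 κ _ hκ3 f4 f5
    have ht : ∀ t : ℝ, 0 < t → kME u h {3} ∅ t (d - (starRingEnd ℂ) (exp (θ' * I) * z'))
        (exp (θ * I) * y') = G t (d - (starRingEnd ℂ) (exp (θ' * I) * z')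
          - rf u h 3 (exp (θ * I) * y')) := fun t ht =>
      hmid.2.1 u h 3 t _ _ hun ht (by linarith only [f2, mul_pos hs hp']) (by linarith only [f1, mul_pos hs hp])
    have hL : Lh (kME u h {3} ∅) κ (d - (starRingEnd ℂ) (exp (θ' * I) * z')) (exp (θ * I) * y')
        = ∫⁻ t in Set.Ioi (0 : ℝ), ENNReal.ofReal (Real.exp (-(κ ^ 2 * t))
          * G t (d - (starRingEnd ℂ) (exp (θ' * I) * z') - rf u h 3 (exp (θ * I) * y'))) := by
      unfold Lh
      refine setLIntegral_congr_fun measurableSet_Ioi fun t h't => ?_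
      simp only [Set.mem_Ioi] at h't
      simp only [ht t h't]
    rw [hL]
    have hkp : 0 < κ ^ (-(1 / 2) : ℝ) := Real.rpow_pos_of_pos hκ0 _
    refine ⟨le_trans (ENNReal.ofReal_le_ofReal ?_) q1, le_trans q2 (ENNReal.ofReal_le_ofReal ?_)⟩
    · gcongr
    · gcongr
  · -- corner `0`
    have hX : x ∈ RcU (9 / 20 * d) (11 / 20 * d) ρ1 := ⟨x1, x2, x3, x4.trans hρ1⟩
    have hY : y' ∈ Rct (9 / 20 * ‖a‖) (11 / 20 * ‖a‖) ρ1 :=
      ⟨hy''.1, hy''.2.1, hy''.2.2.trans hρ1⟩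
    obtain ⟨q1, q2⟩ := a5 κ _ _ hκ1 hX hY
    have g1 : ∀ x, ip (u 0) (gr θ x) - h 0 = ip (H60K.us (α - θ) θ 1) x := by
      intro x
      have e1 : u 0 = I * exp (α * I) := rfl
      have e2 : h 0 = 0 := rfl
      rw [gr_apply, e2, ip_rot, e1, sub_zero]
      congr 1
      simp only [H60K.us, one_ne_zero, if_false, if_true]
      rw [show (((α - θ : ℝ) : ℂ) * I) = α * I + -(θ * I) by push_cast; ring, Complex.exp_add]
      ring
    have g2 : ∀ x, ip (u 1) (gr θ x) - h 1 = ip (H60K.us (α - θ) θ 2) x := by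
      intro x
      have e1 : u 1 = -I := by
        change -(I * exp (-(((0 : ℝ) : ℂ) * I))) = -I
        simp
      have e2 : h 1 = 0 := rfl
      rw [gr_apply, e2, ip_rot, e1, sub_zero]
      congr 1
      simp only [H60K.us]
      rw [if_neg (by decide), if_neg (by decide)]
      ring
    have ht : ∀ t : ℝ, 0 < t → H60K.kME (H60K.us (α - θ) θ) (H60K.hh 1) {1} {2} t
        (exp (-(θ * I)) * x) y' = kME u h {0} {1} t (exp (θ * I) * y') x := by
      intro t ht
      rw [← (htrf u h (gr θ) 0 1 _ _ (by decide) g1 g2 t _ _ ht).2, kME_symm u h _ _ ht]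
      rw [gr_apply, gr_apply, ← mul_assoc, ← Complex.exp_add, add_neg_cancel, Complex.exp_zero,
        one_mul]
    rw [Lh_congr ht] at q1 q2
    have n2 : ‖exp (θ * I) * y'‖ = ‖y'‖ := by
      rw [norm_mul, norm_exp_real, one_mul]
    rw [n2, add_comm ‖y'‖ ‖x‖]
    refine ⟨le_trans (ENNReal.ofReal_le_ofReal ?_) q1, le_trans q2 (ENNReal.ofReal_le_ofReal ?_)⟩
    · gcongr
    · gcongr

end Pool.Agent.XQ.K4.H32
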