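import Pool.Agent.Helper36_XQ.Stmt4

/-!
Squad XQ (MP_5b0138_an), part A4, module PB3 (helper32): the order of `P3` in G3.
-/

set_option autoImplicit false

namespace Pool.Agent.XQ.K4.H32

open MeasureTheory Complex Filter Topology ProbabilityTheory Pool.Agent.H16Iso Pool.Agent.H62T
  Pool.Agent.H16F Pool.Agent.H38KL Pool.Agent.AEU Pool.Agent.XQ.K4
open scoped ENNReal NNReal

theorem meas_Rct (a b ρ : ℝ) : MeasurableSet (Rct a b ρ) := by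
  have h1 : IsOpen {x : ℂ | a < x.re} := isOpen_lt continuous_const Complex.continuous_re
  have h2 : IsOpen {x : ℂ | x.re < b} := isOpen_lt Complex.continuous_re continuous_const
  have h3 : IsOpen {x : ℂ | |x.im| < ρ} := isOpen_lt Complex.continuous_im.abs continuous_const
  exact (h1.inter (h2.inter h3)).measurableSet

/-- product bound, triple integral -/
theorem triple_eq {S0 S1 S2 : Set ℂ} {A : ℝ≥0∞} (hA : A ≠ ⊤) {f1 : ℂ → ℝ≥0∞}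
    (hf1 : Measurable f1) (hf1' : ∀ x, f1 x ≠ ⊤) (f2 : ℂ → ℂ → ℝ≥0∞) :
    ∫⁻ x in S0, ∫⁻ z in S1, ∫⁻ y in S2, A * (f1 x * f2 z y)
      = A * ((∫⁻ x in S0, f1 x) * ∫⁻ z in S1, ∫⁻ y in S2, f2 z y) := by
  have h1 : ∀ x, ∫⁻ z in S1, ∫⁻ y in S2, A * (f1 x * f2 z y)
      = A * f1 x * ∫⁻ z in S1, ∫⁻ y in S2, f2 z y := by
    intro x
    have hx : A * f1 x ≠ ⊤ := ENNReal.mul_ne_top hA (hf1' x)
    rw [← lintegral_const_mul' _ _ hx]
    refine lintegral_congr fun z => ?_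
    rw [← lintegral_const_mul' _ _ hx]
    refine lintegral_congr fun y => ?_
    rw [mul_assoc]
  rw [lintegral_congr h1, lintegral_mul_const _ (hf1.const_mul _), lintegral_const_mul' _ _ hA,
    mul_assoc]

theorem pow_four {κ : ℝ} (hκ : 0 < κ) :
    κ⁻¹ * κ ^ (-(1 / 2) : ℝ) * κ⁻¹ * κ ^ (-(1 / 2) : ℝ) * κ⁻¹ = κ ^ (-4 : ℝ) := by
  rw [← Real.rpow_neg_one, ← Real.rpow_add hκ, ← Real.rpow_add hκ, ← Real.rpow_add hκ,
    ← Real.rpow_add hκ]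
  norm_num

theorem exp_split (κ x1 x2 x3 x4 x5 : ℝ) :
    Real.exp (-(κ * (x1 + x2))) * Real.exp (-(κ * x3)) * Real.exp (-(κ * (x4 + x5)))
      = Real.exp (-(κ * (x5 + x1))) * Real.exp (-(κ * (x4 + x3 + x2))) := by
  rw [← Real.exp_add, ← Real.exp_add, ← Real.exp_add]
  congr 1
  ring

/-- module PB3 -/
theorem pb3 (hcr : Cr3Statement) (hmid : MidStatement) (hin1 : In1Statement)
    (hin2 : In2Statement) : Pb3Statement := by
  intro η1 η2 ζ1 ζ2 d hy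
  have hd := hy.dpos
  obtain ⟨ρ', c1, C1, κ1, a1, a2, a3, a4, a5⟩ := hcr η1 η2 ζ1 ζ2 d hy
  obtain ⟨c2, C2, κ2, b1, b2, b3, b4⟩ := hmid.2.2 (d / 5) (2 * d) (by positivity) (by linarith)
  set ρ := min ρ' (d / 4) with hρ
  have hρ0 : 0 < ρ := lt_min a1 (by positivity)
  have hρ1 : ρ ≤ ρ' := min_le_left _ _
  have hρ2 : ρ ≤ d / 4 := min_le_right _ _
  obtain ⟨c3, C3, κ3, d1, d2, d3, d4⟩ := hin1 (9 / 20 * d) (11 / 20 * d) d ρ (by positivity)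
    (by linarith) (by linarith) hρ0
  obtain ⟨c4, C4, κ4, e1, e2, e3, e4⟩ := hin2 (7 / 20 * d) (8 / 20 * d) (12 / 20 * d) (13 / 20 * d) d ρ
    (by positivity) (by linarith) (by linarith) (by linarith) (by linarith) hρ0
  refine ⟨ρ, c1 * c2 * c1 * c3 * c4, C1 * C2 * C1 * C3 * C4, max (max κ1 κ2) (max κ3 κ4), hρ0,
    by positivity, by positivity, lt_max_of_lt_left (lt_max_of_lt_left a4), ?_⟩
  intro κ hκ
  obtain ⟨hκ12, hκ34⟩ := max_le_iff.1 hκ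
  obtain ⟨hκ1, hκ2⟩ := max_le_iff.1 hκ12
  obtain ⟨hκ3, hκ4⟩ := max_le_iff.1 hκ34
  have hκ0 : 0 < κ := a4.trans_le hκ1
  have hki : 0 < κ⁻¹ := inv_pos.2 hκ0
  have hkh : 0 < κ ^ (-(1 / 2) : ℝ) := Real.rpow_pos_of_pos hκ0 _
  set u := u3 η1 η2 ζ1 ζ2 with hu
  set h := h3 ζ1 ζ2 d with hh
  set f1 : ℂ → ℝ≥0∞ := fun x => ENNReal.ofReal (Real.exp (-(κ * (‖x‖ + ‖x - d‖)))) with hf1
  set f2 : ℂ → ℂ → ℝ≥0∞ := fun z y =>
    ENNReal.ofReal (Real.exp (-(κ * (‖y‖ + ‖y - z‖ + ‖z - d‖)))) with hf2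
  have mf1 : Measurable f1 := by
    apply ENNReal.measurable_ofReal.comp
    apply Continuous.measurable
    fun_prop
  have hI2 : ∫⁻ z in Rct (12 / 20 * d) (13 / 20 * d) ρ, ∫⁻ y in Rct (7 / 20 * d) (8 / 20 * d) ρ, f2 z y
      = ∫⁻ z in Rct (7 / 20 * d) (8 / 20 * d) ρ, ∫⁻ y in Rct (12 / 20 * d) (13 / 20 * d) ρ,
          ENNReal.ofReal (Real.exp (-(κ * (‖z‖ + ‖z - y‖ + ‖y - d‖)))) := by
    rw [lintegral_lintegral_swap]
    apply Measurable.aemeasurable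
    apply ENNReal.measurable_ofReal.comp
    apply Continuous.measurable
    fun_prop
  -- the kernel of the middle arc
  have hmidL : ∀ z y : ℂ, Lh (kME u h ∅ ∅) κ z y
      = ∫⁻ t in Set.Ioi (0 : ℝ), ENNReal.ofReal (Real.exp (-(κ ^ 2 * t)) * G t (z - y)) := by
    intro z y
    unfold Lh
    refine setLIntegral_congr_fun measurableSet_Ioi fun t ht => ?_
    simp only [Set.mem_Ioi] at ht
    simp only [hmid.1 u h t z y ht]
  -- pointwise bounds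
  have hpt : ∀ x ∈ Rct (9 / 20 * d) (11 / 20 * d) ρ, ∀ z ∈ Rct (12 / 20 * d) (13 / 20 * d) ρ,
      ∀ y ∈ Rct (7 / 20 * d) (8 / 20 * d) ρ,
      ENNReal.ofReal (c1 * κ⁻¹ * (c2 * κ ^ (-(1 / 2) : ℝ)) * (c1 * κ⁻¹)) * (f1 x * f2 z y)
        ≤ Lh (kME u h (Mw ζ1 ζ2) (Ew ζ1 ζ2)) κ x z * Lh (kME u h ∅ ∅) κ z y
          * Lh (kME u h (Mv η1 η2) (Ev η1 η2)) κ y x ∧
      Lh (kME u h (Mw ζ1 ζ2) (Ew ζ1 ζ2)) κ x z * Lh (kME u h ∅ ∅) κ z y
          * Lh (kME u h (Mv η1 η2) (Ev η1 η2)) κ y x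
        ≤ ENNReal.ofReal (C1 * κ⁻¹ * (C2 * κ ^ (-(1 / 2) : ℝ)) * (C1 * κ⁻¹)) * (f1 x * f2 z y) := by
    intro x hx z hz y hy'
    have hx' : x ∈ S3 d ρ' 0 := ⟨hx.1, hx.2.1, hx.2.2.trans_le hρ1⟩
    have hz' : z ∈ S3 d ρ' 1 := ⟨hz.1, hz.2.1, hz.2.2.trans_le hρ1⟩
    have hy'' : y ∈ S3 d ρ' 2 := ⟨hy'.1, hy'.2.1, hy'.2.2.trans_le hρ1⟩
    obtain ⟨⟨p1, p2⟩, p3, p4⟩ := a5 κ x y z hκ1 hx' hz' hy''
    have hn1 : d / 5 ≤ ‖z - y‖ := by
      refine le_trans ?_ (Complex.abs_re_le_norm _)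
      refine le_trans ?_ (le_abs_self _)
      rw [sub_re]
      linarith [hz.1, hy'.2.1]
    have hn2 : ‖z - y‖ ≤ 2 * d := by
      refine (Complex.norm_le_abs_re_add_abs_im _).trans ?_
      have i1 : |(z - y).re| ≤ 6 / 20 * d := by
        rw [sub_re, abs_le]
        constructor <;> linarith [hz.1, hy'.2.1, hz.2.1, hy'.1]
      have i2 : |(z - y).im| ≤ d / 2 := by
        rw [sub_im]
        refine (abs_sub _ _).trans ?_
        linarith [hz.2.2, hy'.2.2]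
      linarith
    obtain ⟨p5, p6⟩ := b4 κ (z - y) hκ2 hn1 hn2
    rw [← hmidL] at p5 p6
    have key : ∀ k1 k2 : ℝ, 0 < k1 → 0 < k2 →
        ENNReal.ofReal (k1 * κ⁻¹ * (k2 * κ ^ (-(1 / 2) : ℝ)) * (k1 * κ⁻¹)) * (f1 x * f2 z y)
        = ENNReal.ofReal (k1 * κ⁻¹ * Real.exp (-(κ * (‖x - d‖ + ‖z - d‖))))
          * ENNReal.ofReal (k2 * κ ^ (-(1 / 2) : ℝ) * Real.exp (-(κ * ‖z - y‖)))
          * ENNReal.ofReal (k1 * κ⁻¹ * Real.exp (-(κ * (‖y‖ + ‖x‖)))) := by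
      intro k1 k2 hk1 hk2
      simp only [hf1, hf2]
      rw [← ENNReal.ofReal_mul (by positivity), ← ENNReal.ofReal_mul (by positivity),
        ← ENNReal.ofReal_mul (by positivity), ← ENNReal.ofReal_mul (by positivity)]
      congr 1
      have := exp_split κ ‖x - d‖ ‖z - d‖ ‖z - y‖ ‖y‖ ‖x‖
      rw [norm_sub_rev y z, ← this]
      ring
    rw [key c1 c2 a2 b1, key C1 C2 a3 b2]
    exact ⟨mul_le_mul' (mul_le_mul' p1 p5) p3, mul_le_mul' (mul_le_mul' p2 p6) p4⟩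
  -- the value of the product of the integrals
  have hval : ∀ k1 k2 k3 k4 : ℝ, 0 < k1 → 0 < k2 → 0 < k3 → 0 < k4 →
      ENNReal.ofReal (k1 * κ⁻¹ * (k2 * κ ^ (-(1 / 2) : ℝ)) * (k1 * κ⁻¹))
        * (ENNReal.ofReal (k3 * κ ^ (-(1 / 2) : ℝ) * Real.exp (-(κ * d)))
          * ENNReal.ofReal (k4 * κ⁻¹ * Real.exp (-(κ * d))))
      = ENNReal.ofReal (k1 * k2 * k1 * k3 * k4 * κ ^ (-4 : ℝ) * Real.exp (-(2 * d * κ))) := by
    intro k1 k2 k3 k4 hk1 hk2 hk3 hk4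
    rw [← ENNReal.ofReal_mul (by positivity), ← ENNReal.ofReal_mul (by positivity)]
    congr 1
    have h1 : Real.exp (-(2 * d * κ)) = Real.exp (-(κ * d)) * Real.exp (-(κ * d)) := by
      rw [← Real.exp_add]
      congr 1
      ring
    rw [h1, ← pow_four hκ0]
    ring
  have hP : P3 u h (M3 η1 η2 ζ1 ζ2) (E3 η1 η2 ζ1 ζ2) (S3 d ρ) κ
      = ∫⁻ x in Rct (9 / 20 * d) (11 / 20 * d) ρ, ∫⁻ z in Rct (12 / 20 * d) (13 / 20 * d) ρ,
        ∫⁻ y in Rct (7 / 20 * d) (8 / 20 * d) ρ,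
          Lh (kME u h (Mw ζ1 ζ2) (Ew ζ1 ζ2)) κ x z * Lh (kME u h ∅ ∅) κ z y
          * Lh (kME u h (Mv η1 η2) (Ev η1 η2)) κ y x := rfl
  obtain ⟨⟨i1, i2⟩, -⟩ := d4 κ hκ3
  obtain ⟨i3, i4⟩ := e4 κ hκ4
  rw [← hI2] at i3 i4
  rw [hP]
  constructor
  · rw [← hval c1 c2 c3 c4 a2 b1 d1 e1]
    refine le_trans (mul_le_mul' le_rfl (mul_le_mul' i1 i3)) ?_
    rw [← triple_eq ENNReal.ofReal_ne_top mf1 (fun x => ENNReal.ofReal_ne_top) f2]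
    refine setLIntegral_mono' (meas_Rct _ _ _) fun x hx => ?_
    refine setLIntegral_mono' (meas_Rct _ _ _) fun z hz => ?_
    exact setLIntegral_mono' (meas_Rct _ _ _) fun y hy' => (hpt x hx z hz y hy').1
  · rw [← hval C1 C2 C3 C4 a3 b2 d2 e2]
    refine le_trans ?_ (mul_le_mul' le_rfl (mul_le_mul' i2 i4))
    rw [← triple_eq ENNReal.ofReal_ne_top mf1 (fun x => ENNReal.ofReal_ne_top) f2]
    refine setLIntegral_mono' (meas_Rct _ _ _) fun x hx => ?_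
    refine setLIntegral_mono' (meas_Rct _ _ _) fun z hz => ?_
    exact setLIntegral_mono' (meas_Rct _ _ _) fun y hy' => (hpt x hx z hz y hy').2

end Pool.Agent.XQ.K4.H32
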